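import Mathlib
import Pool.Agent.X47.FCTrail2

/-!
# The Fermat-Catalan equation along polynomial curves with a balanced finite point

Let `f`, `g`, `h` be polynomials with integer coefficients and `t₀` an integer with `h(t₀) = 0` and
`f(t₀), g(t₀) ∈ {1, -1}`. Let `e` be a lower bound for the order of the zero `t₀` of `h` and let
`i ≥ 1` be the smaller one of the orders of vanishing of `f - f(t₀)` and `g - g(t₀)` at `t₀` (so `f`
and `g` are not both constant). Then only FINITELY many integers `t` (and finitely many value triples)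
are such that `|f(t)|`, `|g(t)|`, `|h(t)|`, in any order, are the bases of a solution of the
Fermat-Catalan equation in which the exponent `R` of the base `|h(t)|` satisfies `e R > i`. If
`i < 2 e`, for instance if `f'(t₀) ≠ 0` or `g'(t₀) ≠ 0`, this is no condition on the exponents. The
other exponents are completely free, and no other condition is imposed on the polynomials.

Proof: the exponents are at most `C (log |t|) ^ κ` (linear forms in two logarithms). The equation
modulo `(t - t₀) ^ (i + 1)` gives `P a = Q b`, where `a`, `b` are the coefficients of order `i` of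
`f / f(t₀)`, `g / g(t₀)` and `P`, `Q` are the exponents of `|f(t)|`, `|g(t)|`. Hence the powers
`f ^ P`, `g ^ Q` are powers of the same exponent of `f ^ |b|`, `g ^ |a|` up to the fixed exponent
`|a b|`, and the order of vanishing of `f ^ |b| - g ^ |a|` at `t₀` bounds `R`; the size of
`|f(t)| ^ |b| - |g(t)| ^ |a|` (at least `1`) then bounds `P` and `Q`. What remains is excluded by the
Mason-Stothers theorem.
-/

set_option autoImplicit false

namespace Pool.Agent.Results.MP_2738db_nt.BalancedPoint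

open Polynomial

/-- `(x, y, z, p, q, r)` is a solution of the Fermat-Catalan equation: `x`, `y`, `z` are positive
integers with `gcd (x, y, z) = 1`, the exponents `p`, `q`, `r` are positive integers with
`1/p + 1/q + 1/r ≤ 1`, and `x ^ p + y ^ q = z ^ r`. -/
def Solution (x y z p q r : ℕ) : Prop :=
  0 < x ∧ 0 < y ∧ 0 < z ∧ Nat.gcd x (Nat.gcd y z) = 1 ∧ 0 < p ∧ 0 < q ∧ 0 < r ∧
    (1 : ℚ) / p + 1 / q + 1 / r ≤ 1 ∧ x ^ p + y ^ q = z ^ r

/-- The three pairs `u'`, `v'`, `w'` (base, exponent) are `u`, `v`, `w` in some order. -/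
def Arranged (u v w u' v' w' : ℕ × ℕ) : Prop :=
  (u', v', w') = (u, v, w) ∨ (u', v', w') = (u, w, v) ∨ (u', v', w') = (v, u, w) ∨
    (u', v', w') = (v, w, u) ∨ (u', v', w') = (w, u, v) ∨ (u', v', w') = (w, v, u)

/-- The pairs `(t, (x ^ p, y ^ q, z ^ r))` where `t` is an integer and `(x, y, z, p, q, r)` is a solution
whose bases are `|f(t)|`, `|g(t)|`, `|h(t)|` in some order, with `Ok R` for the exponent `R` of the
base `|h(t)|`. -/
def OnCurve (f g h : ℤ[X]) (Ok : ℕ → Prop) : Set (ℤ × (ℕ × ℕ × ℕ)) :=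
  {s | ∃ P Q R x y z p q r : ℕ, Ok R ∧ Solution x y z p q r ∧
    Arranged ((f.eval s.1).natAbs, P) ((g.eval s.1).natAbs, Q) ((h.eval s.1).natAbs, R)
      (x, p) (y, q) (z, r) ∧ s.2 = (x ^ p, y ^ q, z ^ r)}

theorem result (f g h : ℤ[X]) (t₀ : ℤ) (i e : ℕ) (hi : 1 ≤ i) (he : 1 ≤ e)
    (hf : f.eval t₀ = 1 ∨ f.eval t₀ = -1) (hg : g.eval t₀ = 1 ∨ g.eval t₀ = -1)
    (hfi : (X - C t₀) ^ i ∣ f - C (f.eval t₀)) (hgi : (X - C t₀) ^ i ∣ g - C (g.eval t₀))
    (hfg : ¬ ((X - C t₀) ^ (i + 1) ∣ f - C (f.eval t₀) ∧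
      (X - C t₀) ^ (i + 1) ∣ g - C (g.eval t₀)))
    (hh : (X - C t₀) ^ e ∣ h) :
    (OnCurve f g h (fun R => i < e * R)).Finite ∧
      (i < 2 * e → (OnCurve f g h (fun _ => True)).Finite) := by
  -- move `t₀` to `0` and normalize the signs
  obtain ⟨a, ha⟩ : ∃ a, a = f.eval t₀ := ⟨_, rfl⟩
  obtain ⟨b, hb⟩ : ∃ b, b = g.eval t₀ := ⟨_, rfl⟩
  rw [← ha] at hf hfi hfg
  rw [← hb] at hg hgi hfg
  have haa : a * a = 1 := by rcases hf with h | h <;> rw [h] <;> norm_num
  have hbb : b * b = 1 := by rcases hg with h | h <;> rw [h] <;> norm_num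
  have hana : a.natAbs = 1 := by rcases hf with h | h <;> rw [h] <;> rfl
  have hbna : b.natAbs = 1 := by rcases hg with h | h <;> rw [h] <;> rfl
  obtain ⟨f', hf'⟩ := hfi
  obtain ⟨g', hg'⟩ := hgi
  obtain ⟨h', hh'⟩ := hh
  have hXc : (X - C t₀ : ℤ[X]).comp (X + C t₀) = X := by simp
  have h1 : (C a * f).comp (X + C t₀) = 1 + X ^ i * (C a * f'.comp (X + C t₀)) := by
    have h2 : f = C a + (X - C t₀) ^ i * f' := by rw [← hf']; ring
    have h3 : (f.comp (X + C t₀)) = C a + X ^ i * f'.comp (X + C t₀) := by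
      conv_lhs => rw [h2]
      rw [add_comp, mul_comp, pow_comp, hXc, C_comp]
    rw [mul_comp, C_comp, h3, mul_add, ← C_mul, haa, C_1]
    ring
  have h2 : (C b * g).comp (X + C t₀) = 1 + X ^ i * (C b * g'.comp (X + C t₀)) := by
    have h2 : g = C b + (X - C t₀) ^ i * g' := by rw [← hg']; ring
    have h3 : (g.comp (X + C t₀)) = C b + X ^ i * g'.comp (X + C t₀) := by
      conv_lhs => rw [h2]
      rw [add_comp, mul_comp, pow_comp, hXc, C_comp]
    rw [mul_comp, C_comp, h3, mul_add, ← C_mul, hbb, C_1]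
    ring
  have h3 : h.comp (X + C t₀) = X ^ e * h'.comp (X + C t₀) := by
    rw [hh', mul_comp, pow_comp, hXc]
  have hnz : ∀ (c : ℤ) (F F' : ℤ[X]), c ≠ 0 → F - C c = (X - C t₀) ^ i * F' →
      (C c * F'.comp (X + C t₀)).eval 0 = 0 → (X - C t₀) ^ (i + 1) ∣ F - C c := by
    intro c F F' hc h4 h5
    rw [h4, pow_succ]
    apply mul_dvd_mul_left
    rw [dvd_iff_isRoot, IsRoot]
    rw [eval_mul, eval_C, eval_comp] at h5
    simp only [eval_add, eval_X, eval_C, zero_add] at h5
    exact (mul_eq_zero.1 h5).resolve_left hc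
  have ha0 : a ≠ 0 := by rintro h; rw [h] at haa; norm_num at haa
  have hb0 : b ≠ 0 := by rintro h; rw [h] at hbb; norm_num at hbb
  have hab : (C a * f'.comp (X + C t₀)).eval 0 ≠ 0 ∨ (C b * g'.comp (X + C t₀)).eval 0 ≠ 0 := by
    by_contra hcon
    push Not at hcon
    exact hfg ⟨hnz a f f' ha0 hf' hcon.1, hnz b g g' hb0 hg' hcon.2⟩
  obtain ⟨T, hT⟩ := Pool.Agent.X47.FC.trail0 _ _ _ _ _ _ i e hi he h1 h2 h3 hab
  have hsmall : ∀ s ∈ OnCurve f g h (fun R => i < e * R), (s.1 - t₀).natAbs < T := by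
    rintro ⟨t, v⟩ ⟨P, Q, R, x, y, z, p, q, r, hR, hs, harr, -⟩
    by_contra hlt
    refine hT (t - t₀) (not_lt.1 hlt) P Q R ?_ hR
    have e1 : (((C a * f).comp (X + C t₀)).eval (t - t₀)).natAbs = (f.eval t).natAbs := by
      rw [eval_comp]
      simp only [eval_add, eval_X, eval_C, sub_add_cancel, eval_mul, Int.natAbs_mul, hana, one_mul]
    have e2 : (((C b * g).comp (X + C t₀)).eval (t - t₀)).natAbs = (g.eval t).natAbs := by
      rw [eval_comp]
      simp only [eval_add, eval_X, eval_C, sub_add_cancel, eval_mul, Int.natAbs_mul, hbna, one_mul]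
    have e3 : ((h.comp (X + C t₀)).eval (t - t₀)).natAbs = (h.eval t).natAbs := by
      rw [eval_comp]
      simp only [eval_add, eval_X, eval_C, sub_add_cancel]
    rw [e1, e2, e3]
    exact Pool.Agent.X47.FC.gen_of hs harr
  have hfin : (OnCurve f g h (fun R => i < e * R)).Finite := by
    have hts : (Set.Icc (t₀ - T) (t₀ + T)).Finite := Set.finite_Icc _ _
    obtain ⟨H, hH⟩ : ∃ H : ℕ, ∀ t ∈ Set.Icc (t₀ - T) (t₀ + T),
        (f.eval t).natAbs + (g.eval t).natAbs + (h.eval t).natAbs ≤ H := by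
      obtain ⟨H, hH⟩ := (hts.image
        (fun t => (f.eval t).natAbs + (g.eval t).natAbs + (h.eval t).natAbs)).bddAbove
      exact ⟨H, fun t ht => hH ⟨t, ht, rfl⟩⟩
    refine (hts.prod (Pool.Agent.X47.FC.finite_values H)).subset ?_
    rintro ⟨t, v⟩ hmem
    have hts' := hsmall _ hmem
    simp only at hts'
    have htI : t ∈ Set.Icc (t₀ - T) (t₀ + T) := by
      rw [Set.mem_Icc]
      omega
    obtain ⟨P, Q, R, x, y, z, p, q, r, hR, hs, harr, hv⟩ := hmem
    simp only at harr hv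
    have hHt := hH t htI
    refine Set.mem_prod.2 ⟨htI, x, y, z, p, q, r, hs, ?_, ?_, ?_, hv⟩ <;>
      simp only [Arranged, Prod.mk.injEq] at harr <;> omega
  refine ⟨hfin, fun hie => hfin.subset ?_⟩
  rintro ⟨t, v⟩ ⟨P, Q, R, x, y, z, p, q, r, -, hs, harr, hv⟩
  refine ⟨P, Q, R, x, y, z, p, q, r, ?_, hs, harr, hv⟩
  have hR2 : 2 ≤ R := by
    have h4 := Pool.Agent.X47.FC.Solution.two_le hs
    simp only [Arranged, Prod.mk.injEq] at harr
    omega
  calc i < 2 * e := hie
    _ = e * 2 := by ring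
    _ ≤ e * R := Nat.mul_le_mul_left e hR2

end Pool.Agent.Results.MP_2738db_nt.BalancedPoint
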