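import Mathlib
import Pool.Agent.X5.FC.Near

/-!
# The bases of a solution are not all near powers of a common integer

For every `δ < 1` there is `γ > 0` such that only finitely many value triples `(a ^ m, b ^ n, c ^ k)`
come from solutions for which there is an integer `N` such that each of the three bases is at distance
at most `N ^ δ` from one of the powers `N, N ^ 2, N ^ 3, …` with exponent at most `N ^ γ`. The
exponents `m, n, k` are free.

Method: `m, n, k` are bounded by a power of the logarithm of the largest base (linear forms in two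
logarithms), so that the terms are very close to powers of `N`, and the two largest ones are close to
the same power of `N`. If `a ^ m`, `c ^ k` are these two, then `m = z' t`, `k = x' t` and
`b ^ n = (c ^ x') ^ t - (a ^ z') ^ t` is close to `t N ^ D (c ^ x' - a ^ z')`, where `c ^ x' - a ^ z'` is
close to an integral multiple of a power of `N`; the factor is a multiple `k i` or `m i` of `k` or
`m`, smaller than `N`, and close to a power of `N`, which is a contradiction.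
-/

set_option autoImplicit false

namespace Pool.Agent.Results.MP_2738db_nt.BasesNearPowers

/-- A solution in pairwise coprime positive integers with exponents at least `2` (the condition
`1/m + 1/n + 1/k < 1` implies that the exponents are at least `2`). -/
def Solution (a b c m n k : ℕ) : Prop :=
  0 < a ∧ 0 < b ∧ 0 < c ∧ Nat.Coprime a b ∧ Nat.Coprime a c ∧ Nat.Coprime b c ∧
    2 ≤ m ∧ 2 ≤ n ∧ 2 ≤ k ∧ a ^ m + b ^ n = c ^ k

/-- `a` is at distance at most `N ^ δ` from some power `N ^ x`, `1 ≤ x ≤ N ^ γ`. -/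
def Near (N : ℕ) (γ δ : ℝ) (a : ℕ) : Prop :=
  ∃ x : ℕ, 1 ≤ x ∧ (x : ℝ) ≤ (N : ℝ) ^ γ ∧ |(a : ℝ) - (N : ℝ) ^ x| ≤ (N : ℝ) ^ δ

theorem result (δ : ℝ) (hδ : δ < 1) : ∃ γ : ℝ, 0 < γ ∧
    {v : ℕ × ℕ × ℕ | ∃ N a b c m n k : ℕ, 1 ≤ N ∧ Solution a b c m n k ∧
      Near N γ δ a ∧ Near N γ δ b ∧ Near N γ δ c ∧ v = (a ^ m, b ^ n, c ^ k)}.Finite := by
  obtain ⟨γ, hγ, N₀, hN₀⟩ := Pool.Agent.X5.FC.no_solutions δ hδ
  obtain ⟨C, κ, hC, hbound⟩ := Pool.Agent.Y902.FB.exp_bound_real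
  refine ⟨γ, hγ, ?_⟩
  obtain ⟨X, hX⟩ : ∃ X : ℕ, ((N₀ : ℝ) + 1) ^ γ ≤ X := exists_nat_ge _
  obtain ⟨B, hB⟩ : ∃ B : ℕ, B = (N₀ + 1) ^ (X + 1) + (N₀ + 1) + 2 := ⟨_, rfl⟩
  obtain ⟨E, hE⟩ : ∃ E : ℕ, C * Real.log (B : ℝ) ^ κ ≤ E := exists_nat_ge _
  obtain ⟨M, hM⟩ : ∃ M : ℕ, M = B ^ E := ⟨_, rfl⟩
  have hB2 : 2 ≤ B := by omega
  refine (Set.finite_Iic ((M, M, M) : ℕ × ℕ × ℕ)).subset ?_
  rintro v ⟨N, a, b, c, m, n, k, hN, ⟨ha, hb, hc, hab, hac, hbc, hm, hn, hk, h⟩,
    ⟨x, hx, hxγ, hax⟩, ⟨y, hy, hyγ, hby⟩, ⟨z, hz, hzγ, hcz⟩, rfl⟩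
  have hNlt : N < N₀ := by
    by_contra hcon
    push Not at hcon
    exact hN₀ N hcon x y z hx hy hz hxγ hyγ hzγ a b c m n k hax hby hcz hab hac hbc hm hn hk h
  have hNR : (1 : ℝ) ≤ N := by exact_mod_cast hN
  have hNR' : (N : ℝ) ≤ (N₀ : ℝ) + 1 := by
    have : (N : ℝ) ≤ (N₀ : ℝ) := by exact_mod_cast hNlt.le
    linarith
  -- the bases are at most `B`
  have hle : ∀ (a x : ℕ), (x : ℝ) ≤ (N : ℝ) ^ γ → |(a : ℝ) - (N : ℝ) ^ x| ≤ (N : ℝ) ^ δ → a ≤ B := by
    intro a x hxγ hax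
    have h1 : (x : ℝ) ≤ X := hxγ.trans ((Real.rpow_le_rpow (by linarith) hNR' hγ.le).trans hX)
    have h1' : x ≤ X := by exact_mod_cast h1
    have h2 := (abs_le.mp hax).2
    have h3 : (N : ℝ) ^ δ ≤ N := by
      calc (N : ℝ) ^ δ ≤ (N : ℝ) ^ (1 : ℝ) := Real.rpow_le_rpow_of_exponent_le hNR hδ.le
        _ = N := Real.rpow_one _
    have h4 : (a : ℝ) ≤ (N : ℝ) ^ x + N := by linarith
    have h5 : a ≤ N ^ x + N := by exact_mod_cast h4
    have h6 : N ^ x ≤ (N₀ + 1) ^ (X + 1) :=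
      (Nat.pow_le_pow_left (by omega) x).trans (Nat.pow_le_pow_right (by omega) (by omega))
    omega
  have haB := hle a x hxγ hax
  have hbB := hle b y hyγ hby
  have hcB := hle c z hzγ hcz
  have hmaxB : max a (max b c) ≤ B := max_le haB (max_le hbB hcB)
  have hmax1 : 1 ≤ max a (max b c) := (show 1 ≤ a from ha).trans (le_max_left _ _)
  have hlog : C * Real.log ((max a (max b c) : ℕ) : ℝ) ^ κ ≤ E := by
    refine le_trans ?_ hE
    apply mul_le_mul_of_nonneg_left _ hC.le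
    apply pow_le_pow_left₀ (Real.log_nonneg (by exact_mod_cast hmax1))
    exact Real.log_le_log (by exact_mod_cast hmax1) (by exact_mod_cast hmaxB)
  obtain ⟨k1, k2, k3⟩ := hbound a b c m n k ha hb hc hab hac hbc hm hn hk h
  have hval : ∀ (a m : ℕ), 0 < a → a ≤ B → (2 ≤ a → (m : ℝ) ≤ E) → a ^ m ≤ M := by
    intro a m ha haB hmE
    rcases Nat.lt_or_ge a 2 with h2 | h2
    · have : a = 1 := by omega
      rw [this, one_pow, hM]
      exact Nat.one_le_pow _ _ (by omega)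
    · have h3 : m ≤ E := by exact_mod_cast hmE h2
      rw [hM]
      exact (Nat.pow_le_pow_left haB m).trans (Nat.pow_le_pow_right (by omega) h3)
  have v1 : a ^ m ≤ M := hval a m ha haB (fun h2 => (k1 h2).trans hlog)
  have v2 : b ^ n ≤ M := hval b n hb hbB (fun h2 => (k2 h2).trans hlog)
  have v3 : c ^ k ≤ M := hval c k hc hcB (fun _ => k3.trans hlog)
  exact ⟨v1, v2, v3⟩

end Pool.Agent.Results.MP_2738db_nt.BasesNearPowers
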