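import Pool.Agent.TH21.PN.Fam

/-!
# The first case of the Fermat-Catalan equation with exponents `(q r, p r, p q)`

`p, q, r` are pairwise coprime odd numbers larger than one. We consider solutions of the
Fermat-Catalan equation `a ^ m + b ^ n = c ^ k` whose exponents are divisible by `q r`, `p r` and
`p q`, so that any two of the exponents have a common factor, but there need not be a common factor
of all three. The first case: `a` is coprime to `p`, `b` is coprime to `q`, `c` is coprime to `r`.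

* A criterion of Sophie Germain's type: if there is an auxiliary prime `t`, then there are no
  solutions of the first case.
* For all different primes `p, q, r` from `5` to `61` there are no solutions of the first case: in
  every solution `p ∣ a` or `q ∣ b` or `r ∣ c`.
* For all different primes `q, r` from `11` to `61` there is a residue class `p₀` modulo some `M`,
  coprime to `M`, such that there are no solutions of the first case for all `p` in this class. In
  particular this holds for infinitely many primes `p`.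
* For `36` pairs `q, r` (for instance `7, 17`; `11, 73`; `19, 59`; `23, 31`; `37, 53`; `37, 149`;
  `467, 487`) with `t = 2 q r + 1` prime there are no solutions of the first case for ALL odd `p > 1`
  coprime to `q r` with `p ≢ 1, -1` modulo `t` (and `p ≢ 1` modulo `2 q r`).

The bases and the exponents are not bounded.

Proof.  The equation says that `x ^ (q r) + y ^ (p r) + z ^ (p q) = 0` has no solution in pairwise
coprime integers. The left side is a sum of two `p`-th powers and of a `(q r)`-th power, so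
`y ^ r + z ^ q = A ^ (q r)`, and in the same way `x ^ r + z ^ p = B ^ (p r)`,
`x ^ q + y ^ p = C ^ (p q)`. The four equations are contradictory modulo a suitable prime `t`.
-/

set_option autoImplicit false

namespace Pool.Agent.Results.MP_2738db_nt.FirstCaseThreeExponents

open Pool.Agent.TH21.PN (NoFirst noFirst_of_aux)

/-- A solution of the Fermat-Catalan equation: `a ^ m + b ^ n = c ^ k` in positive integers, with
pairwise coprime `a, b, c` and `1 / m + 1 / n + 1 / k < 1`. -/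
def Solution (a b c m n k : ℕ) : Prop :=
  0 < a ∧ 0 < b ∧ 0 < c ∧ 0 < m ∧ 0 < n ∧ 0 < k ∧
  Nat.Coprime a b ∧ Nat.Coprime a c ∧ Nat.Coprime b c ∧
  (1 : ℚ) / m + 1 / n + 1 / k < 1 ∧ a ^ m + b ^ n = c ^ k

/-- There are no solutions of the first case with exponents divisible by the products of two of the
numbers `p, q, r`, in any order: if `u, v, w` are the numbers `p, q, r` in some order, then there is
no solution with exponents divisible by `v w`, `u w`, `u v` in which `a`, `b`, `c` are coprime to `u`,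
`v`, `w`. -/
def FirstCase (p q r : ℕ) : Prop :=
  ∀ u v w : ℕ, [u, v, w].Perm [p, q, r] → ∀ a b c m n k : ℕ, Solution a b c m n k →
    v * w ∣ m → u * w ∣ n → u * v ∣ k →
      ¬ (Nat.Coprime a u ∧ Nat.Coprime b v ∧ Nat.Coprime c w)

/-- `t` is auxiliary for `p, q, r`: modulo `t`,

* `p` is no `(q r)`-th power, `q` no `(p r)`-th power and `r` no `(p q)`-th power of an `a ≠ 0`;
* `1 - u` is no `(q r)`-th power if `u ^ p = 1`, `u ≠ 1`, no `(p r)`-th power if `u ^ q = 1`, `u ≠ 1`,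
  and no `(p q)`-th power if `u ^ r = 1`, `u ≠ 1`;
* if `x, y, z ≠ 0` and `y ^ r + z ^ q`, `x ^ r + z ^ p`, `x ^ q + y ^ p` are powers with exponents
  `q r`, `p r`, `p q`, then `x ^ (q r) + y ^ (p r) + z ^ (p q) ≠ 0`. -/
def Auxiliary (p q r t : ℕ) : Prop :=
  (∀ a : ZMod t, a ≠ 0 → a ^ (q * r) ≠ (p : ZMod t)) ∧
  (∀ a : ZMod t, a ≠ 0 → a ^ (p * r) ≠ (q : ZMod t)) ∧
  (∀ a : ZMod t, a ≠ 0 → a ^ (p * q) ≠ (r : ZMod t)) ∧
  (∀ u a : ZMod t, u ^ p = 1 → u ≠ 1 → a ^ (q * r) ≠ 1 - u) ∧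
  (∀ u a : ZMod t, u ^ q = 1 → u ≠ 1 → a ^ (p * r) ≠ 1 - u) ∧
  (∀ u a : ZMod t, u ^ r = 1 → u ≠ 1 → a ^ (p * q) ≠ 1 - u) ∧
  ∀ x y z a b c : ZMod t, x ≠ 0 → y ≠ 0 → z ≠ 0 →
    y ^ r + z ^ q = a ^ (q * r) → x ^ r + z ^ p = b ^ (p * r) → x ^ q + y ^ p = c ^ (p * q) →
    x ^ (q * r) + y ^ (p * r) + z ^ (p * q) ≠ 0

/-- The 22 pairs without the condition modulo `2 q r`. -/
def pairsA : List (ℕ × ℕ) :=
  [(37, 149), (59, 241), (101, 409), (107, 349), (107, 367), (127, 419), (149, 181), (151, 311),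
  (157, 389), (157, 467), (167, 409), (179, 211), (179, 499), (211, 359), (227, 457), (239, 271),
  (257, 307), (263, 487), (313, 347), (433, 491), (449, 457), (467, 487)]

/-- The 14 pairs with the condition modulo `2 q r`. -/
def pairsB : List (ℕ × ℕ) :=
  [(7, 17), (11, 73), (19, 59), (23, 31), (23, 67), (29, 61), (29, 79), (31, 41), (31, 59),
  (37, 53), (41, 43), (41, 61), (59, 67), (73, 83)]

lemma perm_two {v w a b : ℕ} (h : [v, w].Perm [a, b]) : (v = a ∧ w = b) ∨ (v = b ∧ w = a) := by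
  have h1 : v ∈ [a, b] := h.subset List.mem_cons_self
  rcases List.mem_cons.1 h1 with rfl | h1
  · have h2 := List.perm_singleton.1 (List.Perm.cons_inv h)
    left
    exact ⟨rfl, by simpa using h2⟩
  · have h3 : v = b := by simpa using h1
    subst h3
    have h2 := List.perm_singleton.1 (List.Perm.cons_inv (h.trans (List.Perm.swap _ _ _)))
    right
    exact ⟨rfl, by simpa using h2⟩

lemma perm_cases {u v w p q r : ℕ} (h : [u, v, w].Perm [p, q, r]) :
    (u = p ∧ v = q ∧ w = r) ∨ (u = p ∧ v = r ∧ w = q) ∨ (u = q ∧ v = p ∧ w = r) ∨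
    (u = q ∧ v = r ∧ w = p) ∨ (u = r ∧ v = p ∧ w = q) ∨ (u = r ∧ v = q ∧ w = p) := by
  have h1 : u ∈ [p, q, r] := h.subset List.mem_cons_self
  rcases List.mem_cons.1 h1 with rfl | h1
  · rcases perm_two (List.Perm.cons_inv h) with ⟨h2, h3⟩ | ⟨h2, h3⟩
    · exact Or.inl ⟨rfl, h2, h3⟩
    · exact Or.inr (Or.inl ⟨rfl, h2, h3⟩)
  rcases List.mem_cons.1 h1 with rfl | h1
  · rcases perm_two (List.Perm.cons_inv (h.trans (List.Perm.swap _ _ _))) with ⟨h2, h3⟩ | ⟨h2, h3⟩
    · exact Or.inr (Or.inr (Or.inl ⟨rfl, h2, h3⟩))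
    · exact Or.inr (Or.inr (Or.inr (Or.inl ⟨rfl, h2, h3⟩)))
  · have h4 : u = r := by simpa using h1
    subst h4
    have h5 : [p, q, u].Perm [u, p, q] :=
      ((List.Perm.swap _ _ _).cons p).trans (List.Perm.swap _ _ _)
    rcases perm_two (List.Perm.cons_inv (h.trans h5)) with ⟨h2, h3⟩ | ⟨h2, h3⟩
    · exact Or.inr (Or.inr (Or.inr (Or.inr (Or.inl ⟨rfl, h2, h3⟩))))
    · exact Or.inr (Or.inr (Or.inr (Or.inr (Or.inr ⟨rfl, h2, h3⟩))))

/-- from the equation in integers -/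
lemma firstCase_of {p q r : ℕ} (hp : Odd p) (hq : Odd q) (hr : Odd r) (h : NoFirst p q r) :
    FirstCase p q r := by
  intro u v w huvw
  have key : NoFirst u v w ∧ Odd u ∧ Odd v ∧ Odd w := by
    rcases perm_cases huvw with ⟨rfl, rfl, rfl⟩ | ⟨rfl, rfl, rfl⟩ | ⟨rfl, rfl, rfl⟩ |
      ⟨rfl, rfl, rfl⟩ | ⟨rfl, rfl, rfl⟩ | ⟨rfl, rfl, rfl⟩
    · exact ⟨h, hp, hq, hr⟩
    · exact ⟨h.swap23, hp, hr, hq⟩
    · exact ⟨h.swap12, hq, hp, hr⟩
    · exact ⟨h.swap12.swap23, hq, hr, hp⟩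
    · exact ⟨h.swap23.swap12, hr, hp, hq⟩
    · exact ⟨h.swap12.swap23.swap12, hr, hq, hp⟩
  obtain ⟨hno, hu, hv, -⟩ := key
  rintro a b c m n k ⟨-, -, -, -, -, -, hab, hac, hbc, -, heq⟩ ⟨m', rfl⟩ ⟨n', rfl⟩ ⟨k', rfl⟩
    ⟨h1, h2, h3⟩
  have hi : ∀ x y : ℕ, Nat.Coprime x y → IsCoprime (x : ℤ) (y : ℤ) := fun x y h =>
    Nat.isCoprime_iff_coprime.2 h
  refine hno ((a : ℤ) ^ m') ((b : ℤ) ^ n') (-((c : ℤ) ^ k')) (hi _ _ hab).pow
    ((hi _ _ hac).pow).neg_right ((hi _ _ hbc).pow).neg_right ?_ (hi _ _ h1).pow_left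
    (hi _ _ h2).pow_left ((hi _ _ h3).pow_left).neg_left
  rw [(hu.mul hv).neg_pow, ← pow_mul, ← pow_mul, ← pow_mul, Nat.mul_comm m', Nat.mul_comm n',
    Nat.mul_comm k']
  have h4 : (a : ℤ) ^ (v * w * m') + (b : ℤ) ^ (u * w * n') = (c : ℤ) ^ (u * v * k') := by
    exact_mod_cast heq
  linear_combination h4

/-- whole residue classes of `p` -/
theorem pairs_class (q r : ℕ) (hq : q.Prime) (hr : r.Prime) (hq11 : 11 ≤ q) (hr11 : 11 ≤ r)
    (hq61 : q ≤ 61) (hr61 : r ≤ 61) (hqr : q ≠ r) :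
    ∃ M p₀ : ℕ, 0 < M ∧ Nat.Coprime p₀ M ∧ ∀ p : ℕ, Odd p → 1 < p → Nat.Coprime p q →
      Nat.Coprime p r → p ≡ p₀ [MOD M] → NoFirst p q r := by
  have key : ∀ q r : ℕ, q.Prime → r.Prime → 11 ≤ q → r ≤ 61 → q < r →
      ∃ M p₀ : ℕ, 0 < M ∧ Nat.Coprime p₀ M ∧ ∀ p : ℕ, Odd p → 1 < p → Nat.Coprime p q →
        Nat.Coprime p r → p ≡ p₀ [MOD M] → NoFirst p q r := by
    intro q r hq hr hq11 hr61 hlt
    have hc := Pool.Agent.TH21.PN.covPairs_ok
    unfold Pool.Agent.TH21.PN.covPairs at hc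
    rw [List.all_eq_true] at hc
    have hc1 := hc q (Pool.Agent.TH21.PN.mem_primesList hq (by omega) (by omega))
    rw [Bool.or_eq_true] at hc1
    rcases hc1 with hc1 | hc1
    · have := Nat.le_of_ble_eq_true hc1
      omega
    rw [List.all_eq_true] at hc1
    have hc2 := hc1 r (Pool.Agent.TH21.PN.mem_primesList hr (by omega) hr61)
    rw [Bool.or_eq_true] at hc2
    rcases hc2 with hc2 | hc2
    · have := Nat.le_of_ble_eq_true hc2
      omega
    rw [List.any_eq_true] at hc2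
    obtain ⟨⟨t, q', r', g, zq, zr, d, ps⟩, he, h3⟩ := hc2
    simp only [Bool.and_eq_true, List.any_eq_true] at h3
    obtain ⟨h4, h5, ⟨p0, zp⟩, h6, h7, h8⟩ := h3
    have h4' := Nat.eq_of_beq_eq_true h4
    have h5' := Nat.eq_of_beq_eq_true h5
    subst h4' h5'
    have h7' : p0 % 2 = 1 := Nat.eq_of_beq_eq_true h7
    have h8' : Nat.Coprime p0 (t * (t - 1)) := Nat.eq_of_beq_eq_true h8
    have hp0 : Odd p0 := Nat.odd_iff.2 h7'
    have hqo : Odd q' := hq.odd_of_ne_two (by omega)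
    have hro : Odd r' := hr.odd_of_ne_two (by omega)
    obtain ⟨ht, ha⟩ := Pool.Agent.TH21.PN.entry_sound hqo hro
      (Pool.Agent.TH21.PN.tab_ok _ he) hp0 h6
    have : Fact t.Prime := ⟨ht⟩
    have ht0 : 0 < t * (t - 1) := Nat.mul_pos ht.pos (by have := ht.one_lt; omega)
    refine ⟨t * (t - 1), p0, ht0, h8', fun p hp hp1 hpq hpr hpm => ?_⟩
    have m1 : p ≡ p0 [MOD t] := hpm.of_dvd (Dvd.intro _ rfl)
    have m2 : p ≡ p0 [MOD (t - 1)] := hpm.of_dvd (Dvd.intro_left _ rfl)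
    have ha' : Pool.Agent.TH21.PN.Aux p q' r' t :=
      Pool.Agent.TH21.PN.aux_congr hp0.pos hp.pos
        ((ZMod.natCast_eq_natCast_iff _ _ _).2 m1.symm) m2.symm ha
    exact noFirst_of_aux hp hqo hro hp1 (by omega) (by omega) hpq hpr
      ((Nat.coprime_primes hq hr).2 (by omega)) ht ha'
  rcases lt_or_gt_of_ne hqr with h1 | h1
  · exact key q r hq hr hq11 hr61 h1
  · obtain ⟨M, p₀, h2, h3, h4⟩ := key r q hr hq hr11 hq61 h1
    exact ⟨M, p₀, h2, h3, fun p a b c d e => (h4 p a b d c e).swap23⟩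

lemma mem_pairsA {q r : ℕ} (h : (q, r) ∈ pairsA) :
    Pool.Agent.TH21.PN.isPair Pool.Agent.TH21.PN.famA q r := by
  have h1 : ∀ x ∈ pairsA, ∃ e ∈ Pool.Agent.TH21.PN.famA, e.1 = x.1 ∧ e.2.1 = x.2 := by
    decide
  exact h1 _ h

lemma mem_pairsB {q r : ℕ} (h : (q, r) ∈ pairsB) :
    Pool.Agent.TH21.PN.isPair Pool.Agent.TH21.PN.famB q r := by
  have h1 : ∀ x ∈ pairsB, ∃ e ∈ Pool.Agent.TH21.PN.famB, e.1 = x.1 ∧ e.2.1 = x.2 := by
    decide
  exact h1 _ h

lemma odd_pairs {q r : ℕ} (h : (q, r) ∈ pairsA ++ pairsB) : Odd q ∧ Odd r := by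
  have h1 : ∀ x ∈ pairsA ++ pairsB, x.1 % 2 = 1 ∧ x.2 % 2 = 1 := by decide
  have h2 := h1 _ h
  exact ⟨Nat.odd_iff.2 h2.1, Nat.odd_iff.2 h2.2⟩

/-- The first case of the Fermat-Catalan equation for exponents divisible by `q r`, `p r`, `p q`:

(1) there are no solutions if there is an auxiliary prime;
(2) there are no solutions for all different primes `p, q, r` from `5` to `61`;
(3) for all different primes `q, r` from `11` to `61` there are no solutions for all `p` in some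
residue class `p₀` modulo `M` with `gcd (p₀, M) = 1`; so for infinitely many primes `p`;
(4) for the `36` pairs `q, r` of the lists there are no solutions for almost all `p`: all odd `p > 1`
coprime to `q r` with `p ≢ 1, -1` modulo `2 q r + 1` and, for the pairs of the second list,
`p ≢ 1` modulo `2 q r`. -/
theorem result :
    (∀ p q r t : ℕ, Odd p → Odd q → Odd r → 1 < p → 1 < q → 1 < r → Nat.Coprime p q →
      Nat.Coprime p r → Nat.Coprime q r → t.Prime → Auxiliary p q r t → FirstCase p q r) ∧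
    (∀ p q r : ℕ, p.Prime → q.Prime → r.Prime → 5 ≤ p → 5 ≤ q → 5 ≤ r → p ≤ 61 → q ≤ 61 → r ≤ 61 →
      p ≠ q → p ≠ r → q ≠ r → FirstCase p q r) ∧
    (∀ q r : ℕ, q.Prime → r.Prime → 11 ≤ q → 11 ≤ r → q ≤ 61 → r ≤ 61 → q ≠ r →
      (∃ M p₀ : ℕ, 0 < M ∧ Nat.Coprime p₀ M ∧ ∀ p : ℕ, Odd p → 1 < p → Nat.Coprime p (q * r) →
        p ≡ p₀ [MOD M] → FirstCase p q r) ∧
      {p : ℕ | p.Prime ∧ FirstCase p q r}.Infinite) ∧
    (∀ q r p : ℕ, (q, r) ∈ pairsA ++ pairsB → Odd p → 1 < p → Nat.Coprime p (q * r) →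
      ¬ p ≡ 1 [MOD 2 * (q * r) + 1] → ¬ p ≡ 2 * (q * r) [MOD 2 * (q * r) + 1] →
      ((q, r) ∈ pairsB → ¬ p ≡ 1 [MOD 2 * (q * r)]) → FirstCase p q r) := by
  refine ⟨?_, ?_, ?_, ?_⟩
  · intro p q r t hp hq hr hp1 hq1 hr1 hpq hpr hqr ht h
    obtain ⟨h1, h2, h3, h4, h5, h6, h7⟩ := h
    exact firstCase_of hp hq hr (noFirst_of_aux hp hq hr hp1 hq1 hr1 hpq hpr hqr ht
      ⟨h1, h2, h3, h4, h5, h6, h7⟩)
  · intro p q r hp hq hr hp5 hq5 hr5 hp61 hq61 hr61 hpq hpr hqr
    exact firstCase_of (hp.odd_of_ne_two (by omega)) (hq.odd_of_ne_two (by omega))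
      (hr.odd_of_ne_two (by omega))
      (Pool.Agent.TH21.PN.table p q r hp hq hr hp5 hq5 hr5 hp61 hq61 hr61 hpq hpr hqr)
  · intro q r hq hr hq11 hr11 hq61 hr61 hqr
    have hqo : Odd q := hq.odd_of_ne_two (by omega)
    have hro : Odd r := hr.odd_of_ne_two (by omega)
    refine ⟨?_, ?_⟩
    · obtain ⟨M, p₀, h1, h2, h3⟩ := pairs_class q r hq hr hq11 hr11 hq61 hr61 hqr
      refine ⟨M, p₀, h1, h2, fun p hp hp1 hpqr hpm => firstCase_of hp hqo hro ?_⟩
      exact h3 p hp hp1 hpqr.coprime_mul_right_right hpqr.coprime_mul_left_right hpm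
    · rw [Set.infinite_iff_exists_gt]
      intro B
      obtain ⟨p, h1, h2, h3⟩ := Pool.Agent.TH21.PN.pairs q r hq hr hq11 hr11 hq61 hr61 hqr (B + 2)
      exact ⟨p, ⟨h2, firstCase_of (h2.odd_of_ne_two (by omega)) hqo hro h3⟩, by omega⟩
  · intro q r p hmem hp hp1 hpqr h1 h2 h3
    obtain ⟨hq, hr⟩ := odd_pairs hmem
    have hq0 := hq.pos
    have hr0 := hr.pos
    have hpq : Nat.Coprime p q := hpqr.coprime_mul_right_right
    have hpr : Nat.Coprime p r := hpqr.coprime_mul_left_right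
    have hqr0 : 0 < q * r := Nat.mul_pos hq0 hr0
    have e1 : p % (2 * (q * r) + 1) ≠ 1 := by
      intro h
      apply h1
      show p % (2 * (q * r) + 1) = 1 % (2 * (q * r) + 1)
      rw [h, Nat.mod_eq_of_lt (by omega)]
    have e2 : p % (2 * (q * r) + 1) ≠ 2 * (q * r) := by
      intro h
      apply h2
      show p % (2 * (q * r) + 1) = 2 * (q * r) % (2 * (q * r) + 1)
      rw [h, Nat.mod_eq_of_lt (by omega)]
    rcases List.mem_append.1 hmem with hA | hB
    · exact firstCase_of hp hq hr (Pool.Agent.TH21.PN.famA_thm (mem_pairsA hA) hp hp1 hpq hpr e1 e2)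
    · refine firstCase_of hp hq hr
        (Pool.Agent.TH21.PN.famB_thm (mem_pairsB hB) hp hp1 hpq hpr ?_ e1 e2)
      intro h
      apply h3 hB
      show p % (2 * (q * r)) = 1 % (2 * (q * r))
      rw [h, Nat.mod_eq_of_lt (by omega)]

end Pool.Agent.Results.MP_2738db_nt.FirstCaseThreeExponents
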