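import Mathlib
import Pool.Agent.H326R2.GaussLevel
import Pool.Agent.H326R2.ULevel
import Pool.Agent.TH944.Beal.MainTwo
import Pool.Agent.TH944.Beal.TabTwo
import Pool.Agent.H213R3.TabG

/-!
# Theorems of Sophie Germain's type for the Fermat-Catalan equation with different exponents

The Fermat-Catalan equation `a ^ m + b ^ n = c ^ k` with exponents `(2 p, 2 q, 2)` and
`(2 p, 2, 2 r)` (more generally, with exponents divisible by these numbers), where `p`, `q`, `r` are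
odd primes, `p ≠ q`, `p ≠ r`, and no base is bounded.

* If `p` is a Sophie Germain prime and `q ≢ 0, 1, -1` modulo `p` and modulo `2 p + 1` (for example
  `q < p`), then the first case has no solutions: in every primitive solution of
  `a ^ (2 p) + b ^ (2 q) = c ^ 2` with even `a` the prime `q` divides `a`.
* If `p ≥ 5` is a Sophie Germain prime, `r ≢ 0, 1` modulo `p`, `r ≢ 0, 1, -1` modulo `2 p + 1` and
  `5 ^ r ≢ 4 ^ (r - 1)` modulo `2 p + 1`, then in every primitive solution of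
  `a ^ (2 p) + b ^ 2 = c ^ (2 r)` with even `a` the prime `r` divides `a`.
* The same holds for all pairs of different primes from `5` to `251`, with four exceptions for the
  first equation and one for the second one.
* So for all different primes `p, q` from `5` to `251` (apart from the four pairs and the transposed
  pairs) every primitive solution of `a ^ (2 p) + b ^ (2 q) = c ^ 2` has `2 q ∣ a` or `2 p ∣ b`.

The method: two descents in `ℤ` (one in `ℤ[i]` for the second equation) lead to systems such as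
`C ^ q ± D ^ q = 2 A ^ p, 2 ^ p B ^ p` with `C ± D` of the same shape, which are contradictory modulo
an auxiliary prime.
-/

namespace Pool.Agent.Results.MP_2738db_nt.SophieGermainExponents

open Pool.Agent.H326R2

/-- A solution of the Fermat-Catalan equation: `a ^ m + b ^ n = c ^ k` in positive integers, with
pairwise coprime `a, b, c` and `1 / m + 1 / n + 1 / k < 1`. -/
def Solution (a b c m n k : ℕ) : Prop :=
  0 < a ∧ 0 < b ∧ 0 < c ∧ 0 < m ∧ 0 < n ∧ 0 < k ∧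
  Nat.Coprime a b ∧ Nat.Coprime a c ∧ Nat.Coprime b c ∧
  (1 : ℚ) / m + 1 / n + 1 / k < 1 ∧ a ^ m + b ^ n = c ^ k

/-- `q` is not `0`, `1` or `-1` modulo `M` -/
def Away (M q : ℕ) : Prop := ¬ M ∣ q ∧ ¬ M ∣ q - 1 ∧ ¬ M ∣ q + 1

/-- For the exponents `m, n, k` divisible by `2 p`, `2 q`, `2` the prime `q` divides `a` if `a` is
even. -/
def FirstCase (p q : ℕ) : Prop :=
  ∀ a b c m n k : ℕ, Solution a b c m n k → 2 * p ∣ m → 2 * q ∣ n → 2 ∣ k → 2 ∣ a → q ∣ a

/-- For the exponents `m, n, k` divisible by `2 p`, `2`, `2 r` the prime `r` divides `a` if `a` is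
even. -/
def FirstCase' (p r : ℕ) : Prop :=
  ∀ a b c m n k : ℕ, Solution a b c m n k → 2 * p ∣ m → 2 ∣ n → 2 * r ∣ k → 2 ∣ a → r ∣ a

lemma cast_ne_zero {M q : ℕ} (h : ¬ M ∣ q) : (q : ZMod M) ≠ 0 := by
  intro h1
  exact h ((ZMod.natCast_eq_zero_iff _ _).1 h1)

lemma cast_ne_one {M q : ℕ} (hq : 1 ≤ q) (h : ¬ M ∣ q - 1) : (q : ZMod M) ≠ 1 := by
  intro h1
  apply h
  rw [← ZMod.natCast_eq_zero_iff, Nat.cast_sub hq, h1]
  simp

lemma cast_ne_neg_one {M q : ℕ} (h : ¬ M ∣ q + 1) : (q : ZMod M) ≠ -1 := by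
  intro h1
  apply h
  rw [← ZMod.natCast_eq_zero_iff, Nat.cast_add, h1]
  simp

lemma firstCase_of {p q t : ℕ} (hp : Odd p) (hq : q.Prime) (hq2 : Odd q) (ht : t.Prime)
    (ht2 : t ≠ 2) (haux : Aux 2 p q t) : FirstCase p q := by
  rintro a b c m n k ⟨ha, hb, hc, hm, hn, hk, hab, -, -, -, h⟩ ⟨m', rfl⟩ ⟨n', rfl⟩ ⟨k', rfl⟩ h2
  by_contra hqa
  have hm' : m' ≠ 0 := by rintro rfl; simp at hm
  have hco : Nat.Coprime a q := ((Nat.Prime.coprime_iff_not_dvd hq).2 hqa).symm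
  refine Pool.Agent.TH944.Beal.main_two p q t hp hq2 ht ht2 haux ((a : ℤ) ^ m') ((b : ℤ) ^ n')
    ((c : ℤ) ^ k') ?_ ?_ ?_ ?_
  · have h3 : Even (a : ℤ) := by
      obtain ⟨j, hj⟩ := h2
      exact ⟨j, by rw [hj]; push_cast; ring⟩
    exact h3.pow_of_ne_zero hm'
  · exact IsCoprime.pow_left (Nat.isCoprime_iff_coprime.2 hco)
  · exact (Nat.isCoprime_iff_coprime.2 hab).pow
  · have h3 : ((a : ℤ)) ^ (2 * p * m') + (b : ℤ) ^ (2 * q * n') = (c : ℤ) ^ (2 * k') := by
      exact_mod_cast h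
    calc (((a : ℤ) ^ m') ^ p) ^ 2 + (((b : ℤ) ^ n') ^ q) ^ 2
        = (a : ℤ) ^ (2 * p * m') + (b : ℤ) ^ (2 * q * n') := by
          simp only [← pow_mul]
          congr 2 <;> ring
      _ = ((c : ℤ) ^ k') ^ 2 := by rw [h3, ← pow_mul, mul_comm 2 k']

lemma firstCase'_of {p r t : ℕ} (hp : Odd p) (hr : r.Prime) (hr2 : Odd r) (ht : t.Prime)
    (ht2 : t ≠ 2) (haux : AuxG p r t) : FirstCase' p r := by
  rintro a b c m n k ⟨ha, hb, hc, hm, hn, hk, hab, -, -, -, h⟩ ⟨m', rfl⟩ ⟨n', rfl⟩ ⟨k', rfl⟩ h2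
  by_contra hqa
  have hm' : m' ≠ 0 := by rintro rfl; simp at hm
  have hco : Nat.Coprime a r := ((Nat.Prime.coprime_iff_not_dvd hr).2 hqa).symm
  refine main_gauss p r t hp hr2 ht ht2 haux ((a : ℤ) ^ m') ((b : ℤ) ^ n')
    ((c : ℤ) ^ k') ?_ ?_ ?_ ?_
  · have h3 : Even (a : ℤ) := by
      obtain ⟨j, hj⟩ := h2
      exact ⟨j, by rw [hj]; push_cast; ring⟩
    exact h3.pow_of_ne_zero hm'
  · exact IsCoprime.pow_left (Nat.isCoprime_iff_coprime.2 hco)
  · exact (Nat.isCoprime_iff_coprime.2 hab).pow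
  · have h3 : ((a : ℤ)) ^ (2 * p * m') + (b : ℤ) ^ (2 * n') = (c : ℤ) ^ (2 * r * k') := by
      exact_mod_cast h
    calc (((a : ℤ) ^ m') ^ p) ^ 2 + ((b : ℤ) ^ n') ^ 2
        = (a : ℤ) ^ (2 * p * m') + (b : ℤ) ^ (2 * n') := by
          simp only [← pow_mul]
          congr 2 <;> ring
      _ = (((c : ℤ) ^ k') ^ r) ^ 2 := by
          rw [h3]
          simp only [← pow_mul]
          congr 1
          ring

lemma swap {a b c m n k : ℕ} (h : Solution a b c m n k) : Solution b a c n m k := by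
  obtain ⟨h1, h2, h3, h4, h5, h6, h7, h8, h9, h10, h11⟩ := h
  refine ⟨h2, h1, h3, h5, h4, h6, h7.symm, h9, h8, ?_, by rw [add_comm]; exact h11⟩
  linarith

/-- one of the two bases of `a ^ (2 p) + b ^ (2 q) = c ^ 2` is even -/
lemma even_or {a b c m n k : ℕ} (h : Solution a b c m n k) (hm : 2 ∣ m) (hn : 2 ∣ n)
    (hk : 2 ∣ k) : 2 ∣ a ∨ 2 ∣ b := by
  by_contra hcon
  push Not at hcon
  obtain ⟨ha, hb⟩ := hcon
  obtain ⟨m', rfl⟩ := hm
  obtain ⟨n', rfl⟩ := hn
  obtain ⟨k', rfl⟩ := hk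
  obtain ⟨-, -, -, -, -, -, -, -, -, -, h⟩ := h
  have ha1 : a ^ m' % 2 = 1 := by
    rw [Nat.pow_mod, Nat.two_dvd_ne_zero.1 ha, one_pow]; norm_num
  have hb1 : b ^ n' % 2 = 1 := by
    rw [Nat.pow_mod, Nat.two_dvd_ne_zero.1 hb, one_pow]; norm_num
  have h1 : (a ^ m') ^ 2 + (b ^ n') ^ 2 = (c ^ k') ^ 2 := by
    simp only [← pow_mul]
    rw [mul_comm m', mul_comm n', mul_comm k']
    exact h
  set x := a ^ m'
  set y := b ^ n'
  set z := c ^ k'
  have hx : x % 4 = 1 ∨ x % 4 = 3 := by omega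
  have hy : y % 4 = 1 ∨ y % 4 = 3 := by omega
  have hz : z % 4 = 0 ∨ z % 4 = 1 ∨ z % 4 = 2 ∨ z % 4 = 3 := by omega
  have h2 : (x ^ 2 + y ^ 2) % 4 = z ^ 2 % 4 := by rw [h1]
  rw [Nat.add_mod, Nat.pow_mod x, Nat.pow_mod y, Nat.pow_mod z] at h2
  rcases hx with hx | hx <;> rcases hy with hy | hy <;> rcases hz with hz | hz | hz | hz <;>
    rw [hx, hy, hz] at h2 <;> revert h2 <;> decide

theorem result :
    -- Sophie Germain primes `p`, exponents `(2 p, 2 q, 2)`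
    (∀ p q : ℕ, p.Prime → (2 * p + 1).Prime → q.Prime → q ≠ 2 → Away p q → Away (2 * p + 1) q →
      FirstCase p q) ∧
    -- in particular all smaller odd primes `q`
    (∀ p q : ℕ, p.Prime → (2 * p + 1).Prime → q.Prime → q ≠ 2 → q < p → FirstCase p q) ∧
    -- Sophie Germain primes `p`, exponents `(2 p, 2, 2 r)`
    (∀ p r : ℕ, p.Prime → 5 ≤ p → (2 * p + 1).Prime → r.Prime → r ≠ 2 → ¬ p ∣ r → ¬ p ∣ r - 1 →
      Away (2 * p + 1) r → (5 : ZMod (2 * p + 1)) ^ r ≠ 4 ^ (r - 1) → FirstCase' p r) ∧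
    -- all pairs of different primes from `5` to `251`, exponents `(2 p, 2 q, 2)`
    (∀ p q : ℕ, p.Prime → q.Prime → 5 ≤ p → 5 ≤ q → p < 256 → q < 256 → p ≠ q →
      (p, q) ∉ [((5 : ℕ), (11 : ℕ)), (5, 151), (7, 43), (7, 211)] → FirstCase p q) ∧
    -- all pairs of different primes from `5` to `251`, exponents `(2 p, 2, 2 r)`
    (∀ p r : ℕ, p.Prime → r.Prime → 5 ≤ p → 5 ≤ r → p < 256 → r < 256 → p ≠ r →
      (p, r) ≠ (5, 241) → FirstCase' p r) ∧
    -- both parities, exponents `(2 p, 2 q, 2)`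
    (∀ p q : ℕ, p.Prime → q.Prime → 5 ≤ p → 5 ≤ q → p < 256 → q < 256 → p ≠ q →
      (p, q) ∉ [((5 : ℕ), (11 : ℕ)), (5, 151), (7, 43), (7, 211)] →
      (q, p) ∉ [((5 : ℕ), (11 : ℕ)), (5, 151), (7, 43), (7, 211)] →
      ∀ a b c m n k : ℕ, Solution a b c m n k → 2 * p ∣ m → 2 * q ∣ n → 2 ∣ k →
        2 * q ∣ a ∨ 2 * p ∣ b) := by
  have key : ∀ p q : ℕ, p.Prime → (2 * p + 1).Prime → q.Prime → q ≠ 2 → Away p q →
      Away (2 * p + 1) q → FirstCase p q := by
    intro p q hp ht hq hq2 h1 h2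
    have hqo : Odd q := hq.odd_of_ne_two hq2
    have hpo : Odd p := by
      apply hp.odd_of_ne_two
      rintro rfl
      rcases hqo with ⟨j, hj⟩
      exact h1.2.1 ⟨j, by omega⟩
    exact firstCase_of hpo hq hqo ht (by have := hp.two_le; omega)
      (aux_two p q hp ht hqo (cast_ne_zero h1.1) (cast_ne_one hq.one_le h1.2.1)
        (cast_ne_neg_one h1.2.2) (cast_ne_zero h2.1) (cast_ne_one hq.one_le h2.2.1)
        (cast_ne_neg_one h2.2.2))
  have small : ∀ p q : ℕ, p.Prime → q.Prime → 5 ≤ p → 5 ≤ q → p < 256 → q < 256 → p ≠ q →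
      (p, q) ∉ [((5 : ℕ), (11 : ℕ)), (5, 151), (7, 43), (7, 211)] → FirstCase p q := by
    intro p q hp hq hp5 hq5 hp1 hq1 hpq hexc
    obtain ⟨t, ht, ht2, haux⟩ :=
      Pool.Agent.TH944.Beal.TabTwo.exists_aux p q hp hq hp5 hq5 hp1 hq1 hpq hexc
    exact firstCase_of (hp.odd_of_ne_two (by omega)) hq (hq.odd_of_ne_two (by omega)) ht ht2 haux
  refine ⟨key, ?_, ?_, small, ?_, ?_⟩
  · intro p q hp ht hq hq2 hqp
    have h2 := hq.two_le
    have hqo : Odd q := hq.odd_of_ne_two hq2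
    have hpo : Odd p := hp.odd_of_ne_two (by omega)
    have hA : ∀ M : ℕ, p ≤ M → Odd M → Away M q := by
      intro M hM hMo
      refine ⟨fun h => ?_, fun h => ?_, fun h => ?_⟩
      · have := Nat.le_of_dvd (by omega) h
        omega
      · have := Nat.le_of_dvd (by omega) h
        omega
      · have h3 := Nat.le_of_dvd (by omega) h
        have h4 : M = q + 1 := by omega
        rw [h4] at hMo
        rcases hMo with ⟨j, hj⟩
        rcases hqo with ⟨i, hi⟩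
        omega
    exact key p q hp ht hq hq2 (hA p le_rfl hpo) (hA (2 * p + 1) (by omega) ⟨p, rfl⟩)
  · intro p r hp hp5 ht hr hr2 h0 h1 h2 h3
    have hro : Odd r := hr.odd_of_ne_two hr2
    exact firstCase'_of (hp.odd_of_ne_two (by omega)) hr hro ht (by omega)
      (auxG_sg p r hp hp5 ht hro (cast_ne_zero h0) (cast_ne_one hr.one_le h1)
        (cast_ne_zero h2.1) (cast_ne_one hr.one_le h2.2.1) (cast_ne_neg_one h2.2.2) h3)
  · intro p r hp hr hp5 hr5 hp1 hr1 hpr hexc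
    obtain ⟨t, ht, ht2, haux⟩ :=
      Pool.Agent.H213R3.TabG.exists_aux p r hp hr hp5 hr5 hp1 hr1 hpr hexc
    exact firstCase'_of (hp.odd_of_ne_two (by omega)) hr (hr.odd_of_ne_two (by omega)) ht ht2 haux
  · intro p q hp hq hp5 hq5 hp1 hq1 hpq he1 he2 a b c m n k hs hm hn hk
    have hm2 : 2 ∣ m := (Dvd.intro _ rfl : 2 ∣ 2 * p).trans hm
    have hn2 : 2 ∣ n := (Dvd.intro _ rfl : 2 ∣ 2 * q).trans hn
    rcases even_or hs hm2 hn2 hk with h | h
    · left
      have h1 := small p q hp hq hp5 hq5 hp1 hq1 hpq he1 a b c m n k hs hm hn hk h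
      exact Nat.Coprime.mul_dvd_of_dvd_of_dvd
        ((Nat.coprime_primes Nat.prime_two hq).2 (by omega)) h h1
    · right
      have h1 := small q p hq hp hq5 hp5 hq1 hp1 hpq.symm he2 b a c n m k (swap hs) hn hm hk h
      exact Nat.Coprime.mul_dvd_of_dvd_of_dvd
        ((Nat.coprime_primes Nat.prime_two hp).2 (by omega)) h h1

end Pool.Agent.Results.MP_2738db_nt.SophieGermainExponents
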